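import Pool.Agent.Q18.CF.Def
import Pool.Agent.Y63.AWC.Deg

/-!
Linear characters and the principal block of a `p`-group.
-/

set_option linter.unusedSectionVars false

open scoped BigOperators Classical
open Pool.Agent.Helper884 Representation Pool.Agent.H254R3.IN Pool.Agent.Y62 Pool.Agent.Y62.GA

noncomputable section

namespace Pool.Agent.Q18.CF

variable {G : Type} [Group G] [Fintype G]

lemma lin_of_one {χ : G → ℂ} (h : IsIrr χ) (h1 : χ 1 = 1) : ∃ μ : G →* ℂˣ, ∀ g, χ g = μ g := by
  obtain ⟨V, _, _, _, ρ, _, rfl⟩ := h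
  have hfr : Module.finrank ℂ V = 1 := by
    rw [Representation.char_one] at h1
    exact_mod_cast h1
  have hsc : ∀ g, ∃ c : ℂ, ρ g = c • LinearMap.id := by
    intro g
    obtain ⟨v, hv, hspan⟩ := finrank_eq_one_iff'.mp hfr
    obtain ⟨c, hc⟩ := hspan (ρ g v)
    refine ⟨c, LinearMap.ext fun w => ?_⟩
    obtain ⟨a, rfl⟩ := hspan w
    rw [map_smul, ← hc, LinearMap.smul_apply, LinearMap.id_apply, smul_comm]
  choose c hc using hsc
  have htr : ∀ g, ρ.character g = c g := by
    intro g
    change LinearMap.trace ℂ V (ρ g) = c g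
    rw [hc g, map_smul, LinearMap.trace_id, hfr]
    simp
  have hmul : ∀ g h, ρ.character (g * h) = ρ.character g * ρ.character h := by
    intro g h
    rw [htr g, htr h]
    change LinearMap.trace ℂ V (ρ (g * h)) = _
    rw [map_mul, hc g, hc h]
    have : (c g • (LinearMap.id : V →ₗ[ℂ] V)) * (c h • (LinearMap.id : V →ₗ[ℂ] V)) =
        (c g * c h) • LinearMap.id := by
      ext v
      simp only [Module.End.mul_apply, LinearMap.smul_apply, LinearMap.id_apply, mul_smul]
    rw [this, map_smul, LinearMap.trace_id, hfr]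
    simp
  let μ : G →* ℂ :=
    { toFun := fun g => ρ.character g
      map_one' := h1
      map_mul' := hmul }
  exact ⟨μ.toHomUnits, fun g => by rw [MonoidHom.coe_toHomUnits]; rfl⟩

lemma lin_irr (μ : G →* ℂˣ) : IsIrr (fun g => ((μ g : ℂˣ) : ℂ)) := by
  have h1 := tw_irr μ (Pool.Agent.Y508.GA.triv (G := G))
  have h2 : tw μ (fun _ => (1 : ℂ)) = fun g => ((μ g : ℂˣ) : ℂ) := by
    funext g
    unfold Y62.tw
    rw [mul_one]
  rwa [h2] at h1

/-- the number of linear characters -/
lemma card_lin (G : Type) [Group G] [Finite G] :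
    Nat.card (G →* ℂˣ) = Nat.card (Abelianization G) := by
  have h1 : Nat.card (G →* ℂˣ) = Nat.card (Abelianization G →* ℂˣ) :=
    Nat.card_congr Abelianization.lift
  have hfin : Finite (Abelianization G) := Finite.of_surjective (Abelianization.of (G := G)) (QuotientGroup.mk_surjective)
  have : NeZero (Monoid.exponent (Abelianization G)) := ⟨Monoid.exponent_ne_zero_of_finite⟩
  have : NeZero ((Monoid.exponent (Abelianization G) : ℕ) : ℂ) :=
    ⟨by exact_mod_cast Monoid.exponent_ne_zero_of_finite⟩
  have h2 : HasEnoughRootsOfUnity ℂ (Monoid.exponent (Abelianization G)) := inferInstance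
  obtain ⟨e⟩ := CommGroup.monoidHom_mulEquiv_of_hasEnoughRootsOfUnity (Abelianization G) ℂ
  rw [h1]
  exact Nat.card_congr e.toEquiv

end Pool.Agent.Q18.CF
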