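import Pool.Agent.Q18.CF.Reg

/-!
Defect groups and Brauer correspondent of the principal block, for all primes.
-/

set_option linter.style.haveILetI false
set_option linter.unusedSectionVars false

open scoped BigOperators Classical
open Pool.Agent.Helper884 Representation Pool.Agent.H254R3.IN
open Pool.Agent.Y508.GA (triv block omega_red)

noncomputable section

namespace Pool.Agent.Q18.CF

open Pool.Agent.Y62 Pool.Agent.Y62.GA

variable {G : Type} [Group G] {p : ℕ} [hp : Fact p.Prime]

/-- `x` centralises `P` -/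
def Cen (P : Subgroup G) (x : G) : Prop := ∀ d ∈ P, d * x = x * d

/-- sums of invariant functions over sets normalised by a `3`-group -/
theorem sum_cent (P : Subgroup G) [Finite P] (hP : IsPGroup p P) {F : Type} [AddCommGroup F]
    (hF : ∀ a : F, p • a = 0) (S : Finset G) (hS : ∀ d ∈ P, ∀ x ∈ S, d * x * d⁻¹ ∈ S)
    (f : G → F) (hf : ∀ d ∈ P, ∀ x, f (d * x * d⁻¹) = f x) :
    ∑ x ∈ S, f x = ∑ x ∈ S.filter (fun x => Cen P x), f x := by
  letI act : MulAction P {x // x ∈ S} :=
    { smul := fun d x => ⟨d.1 * x.1 * d.1⁻¹, hS d.1 d.2 x.1 x.2⟩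
      one_smul := fun x => Subtype.ext (by
        change (1 : G) * x.1 * (1 : G)⁻¹ = x.1
        simp)
      mul_smul := fun d e x => Subtype.ext (by
        change (d.1 * e.1) * x.1 * (d.1 * e.1)⁻¹ = d.1 * (e.1 * x.1 * e.1⁻¹) * d.1⁻¹
        group) }
  have h1 := sum_fixed (p := p) hP (X := {x // x ∈ S}) hF (fun x => f x.1)
    (fun d x => hf d.1 d.2 x.1)
  rw [← Finset.sum_coe_sort S f, h1]
  have h2 : ∑ x ∈ S.filter (fun x => Cen P x), f x =
      ∑ x : {x // x ∈ S}, if Cen P x.1 then f x.1 else 0 := by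
    rw [Finset.sum_filter, ← Finset.sum_coe_sort S
      (fun x => if Cen P x then f x else 0)]
  rw [h2, Finset.sum_filter]
  refine Finset.sum_congr rfl fun x _ => ?_
  have h3 : (∀ d : P, d • x = x) ↔ Cen P x.1 := by
    constructor
    · intro h d hd
      have h4 : d * x.1 * d⁻¹ = x.1 := congrArg Subtype.val (h ⟨d, hd⟩)
      exact mul_inv_eq_iff_eq_mul.1 h4
    · intro h d
      apply Subtype.ext
      change d.1 * x.1 * d.1⁻¹ = x.1
      exact mul_inv_eq_iff_eq_mul.2 (h d.1 d.2)
  simp only [h3]

theorem class_not_dvd [Finite G] (P : Sylow p G) {x : G} (hx : Cen (P : Subgroup G) x) :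
    ¬ p ∣ Nat.card {y : G // IsConj x y} := by
  intro h
  have hle : (P : Subgroup G) ≤ Subgroup.centralizer ({x} : Set G) := by
    intro d hd
    rw [Subgroup.mem_centralizer_iff]
    intro w hw
    rw [Set.mem_singleton_iff.1 hw]
    exact (hx d hd).symm
  have h1 := card_class_mul x
  obtain ⟨k, hk⟩ := Subgroup.card_dvd_of_le hle
  have h2 := (P : Subgroup G).card_mul_index
  have h3 : (P : Subgroup G).index = Nat.card {y : G // IsConj x y} * k := by
    have h4 : 0 < Nat.card (P : Subgroup G) := Nat.card_pos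
    apply Nat.eq_of_mul_eq_mul_left h4
    rw [h2, ← h1, hk]
    ring
  have h5 : p ∣ (P : Subgroup G).index := h3 ▸ Dvd.dvd.mul_right h k
  exact P.not_dvd_index h5

theorem defect {O : ValuationSubring ℂ} (hO : (p : ℂ) ∈ O.nonunits) [Finite G]
    (P : Sylow p G) : IsDefectGroup p O (B0 O G) P := by
  haveI : Fintype G := Fintype.ofFinite G
  have hB := block (G := G) O
  have hF : ∀ a : RF O, p • a = 0 := by
    intro a
    haveI := charP_RF hO
    rw [nsmul_eq_mul]
    have : ((p : ℕ) : RF O) = 0 := CharP.cast_eq_zero (RF O) p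
    rw [this, zero_mul]
  have h1 : ∑ g : G, blockCoeff (B0 O G) g = 1 := by
    have h2 := Om_blockCoeff hB.irr (ψ := fun _ => (1 : ℂ)) triv
    rw [if_pos ⟨triv, fun x => by rw [sub_self]; exact O.nonunits.zero_mem⟩] at h2
    unfold Om at h2
    simpa using h2
  have h2 : ∑ g : G, red O (blockCoeff (B0 O G) g) = 1 := by
    rw [← red_sum _ _ (fun g _ => blockCoeff_mem hB g), h1, red_one]
  rw [sum_cent (P : Subgroup G) P.isPGroup' hF Finset.univ (fun _ _ _ _ => Finset.mem_univ _)
    (fun g => red O (blockCoeff (B0 O G) g)) (fun d _ x => by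
      change red O (blockCoeff (B0 O G) (d * x * d⁻¹)) = red O (blockCoeff (B0 O G) x)
      rw [blockCoeff_cl hB.irr])] at h2
  obtain ⟨x, hx, hx2⟩ := Finset.exists_ne_zero_of_sum_ne_zero (h2 ▸ one_ne_zero)
  have hxc := (Finset.mem_filter.1 hx).2
  have hle : (P : Subgroup G) ≤ Subgroup.centralizer ({x} : Set G) := by
    intro d hd
    rw [Subgroup.mem_centralizer_iff]
    intro w hw
    rw [Set.mem_singleton_iff.1 hw]
    exact (hxc d hd).symm
  refine ⟨x, ⟨P.subtype hle, ?_⟩, ?_, ?_⟩
  · rw [Sylow.coe_subtype, Subgroup.map_subgroupOf_eq_of_le hle]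
  · intro χ hχ h3
    have h4 := omega_red O hχ x
    rw [red_eq_zero h3] at h4
    exact class_not_dvd P hxc ((red_nat_eq_zero_iff (p := p) hO _).1 h4.symm)
  · intro h3
    exact hx2 (red_eq_zero h3)

theorem brauer {O : ValuationSubring ℂ} (hO : (p : ℂ) ∈ O.nonunits) [Finite G]
    (P : Sylow p G) : IsBrauerCorrespondent p O (P : Subgroup G) (B0 O G)
      (B0 O (Subgroup.normalizer ((P : Subgroup G) : Set G))) := by
  haveI : Fintype G := Fintype.ofFinite G
  refine ⟨block O, ?_, ?_⟩
  · have h1 := defect (G := Subgroup.normalizer ((P : Subgroup G) : Set G)) hO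
      (P.subtype (Subgroup.le_normalizer))
    rwa [Sylow.coe_subtype] at h1
  · intro χ hχ θ hθ x
    have hF : ∀ a : RF O, p • a = 0 := by
      intro a
      haveI := charP_RF hO
      rw [nsmul_eq_mul]
      have : ((p : ℕ) : RF O) = 0 := CharP.cast_eq_zero (RF O) p
      rw [this, zero_mul]
    -- the finsum
    have e1 : ∀ ψ : Subgroup.normalizer ((P : Subgroup G) : Set G) → ℂ,
        ∑ᶠ y : {y : Subgroup.normalizer ((P : Subgroup G) : Set G) // IsConj x (y : G)},
          ψ y / ψ 1 = ∑ y ∈ Finset.univ.filter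
            (fun y : Subgroup.normalizer ((P : Subgroup G) : Set G) => IsConj x (y : G)),
            ψ y / ψ 1 := by
      intro ψ
      rw [finsum_eq_sum_of_fintype]
      rw [← Finset.sum_subtype
        (p := fun y : Subgroup.normalizer ((P : Subgroup G) : Set G) => IsConj x (y : G))
        (Finset.univ.filter
          (fun y : Subgroup.normalizer ((P : Subgroup G) : Set G) => IsConj x (y : G))) (by simp)
        (fun y => ψ y / ψ 1)]
    have hpred : ∀ y z : Subgroup.normalizer ((P : Subgroup G) : Set G), IsConj y z →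
        (IsConj x (y : G) ↔ IsConj x (z : G)) := fun y z hyz =>
      ⟨fun h => h.trans (conj_coe hyz), fun h => h.trans (conj_coe hyz).symm⟩
    have e2 : ∀ {ψ : Subgroup.normalizer ((P : Subgroup G) : Set G) → ℂ} (_ : IsIrr ψ),
        ∑ y ∈ Finset.univ.filter
            (fun y : Subgroup.normalizer ((P : Subgroup G) : Set G) => IsConj x (y : G)),
            ψ y / ψ 1 =
        ∑ L ∈ Finset.univ.filter
          (fun L : ConjClasses (Subgroup.normalizer ((P : Subgroup G) : Set G)) =>
            IsConj x ((rep L : Subgroup.normalizer ((P : Subgroup G) : Set G)) : G)),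
            omega ψ (rep L) := fun hψ => sum_pred _ hpred hψ
    have hmem : ∑ᶠ y : {y : Subgroup.normalizer ((P : Subgroup G) : Set G) // IsConj x (y : G)},
          θ y / θ 1 ∈ O := by
      rw [e1, e2 hθ.1]
      exact sum_mem' _ _ fun L _ => hθ.1.omega_mem O _
    rw [← red_eq_iff (hχ.1.omega_mem O x) hmem, omega_red O hχ, e1, e2 hθ.1,
      red_sum _ _ (fun L _ => hθ.1.omega_mem O _)]
    have h0 : (fun _ : Subgroup.normalizer ((P : Subgroup G) : Set G) => (1 : ℂ)) ∈
        B0 O (Subgroup.normalizer ((P : Subgroup G) : Set G)) :=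
      ⟨triv, fun x => by rw [sub_self]; exact O.nonunits.zero_mem⟩
    rw [Finset.sum_congr rfl (fun L _ => (omega_red O hθ (rep L)).trans
      (omega_red O h0 (rep L)).symm), ← red_sum _ _ (fun L _ => triv.omega_mem O _),
      ← e2 triv]
    simp only [div_one, Finset.sum_const, nsmul_eq_mul, mul_one]
    rw [red_natCast, red_natCast]
    -- counting
    have hP' : IsPGroup p (P : Subgroup G) := P.isPGroup'
    have c1 := sum_cent (P : Subgroup G) hP' hF (Finset.univ.filter (fun y : G => IsConj x y))
      (fun d _ y hy => by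
        rw [Finset.mem_filter] at hy ⊢
        exact ⟨Finset.mem_univ _, hy.2.trans (isConj_iff.2 ⟨d, rfl⟩)⟩)
      (fun _ => (1 : RF O)) (fun _ _ _ => rfl)
    have c2 := sum_cent (P : Subgroup G) hP' hF
      (Finset.univ.filter (fun y : G => IsConj x y ∧ y ∈ Subgroup.normalizer ((P : Subgroup G) : Set G)))
      (fun d hd y hy => by
        rw [Finset.mem_filter] at hy ⊢
        refine ⟨Finset.mem_univ _, hy.2.1.trans (isConj_iff.2 ⟨d, rfl⟩), ?_⟩
        have hd2 : d ∈ Subgroup.normalizer ((P : Subgroup G) : Set G) := Subgroup.le_normalizer hd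
        exact Subgroup.mul_mem _ (Subgroup.mul_mem _ hd2 hy.2.2) (Subgroup.inv_mem _ hd2))
      (fun _ => (1 : RF O)) (fun _ _ _ => rfl)
    have c3 : (Finset.univ.filter (fun y : G => IsConj x y)).filter
        (fun x => Cen (P : Subgroup G) x) =
        (Finset.univ.filter (fun y : G => IsConj x y ∧
          y ∈ Subgroup.normalizer ((P : Subgroup G) : Set G))).filter
        (fun x => Cen (P : Subgroup G) x) := by
      ext y
      simp only [Finset.mem_filter, Finset.mem_univ, true_and]
      constructor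
      · rintro ⟨h1, h2⟩
        refine ⟨⟨h1, cent_le_NN (D := (P : Subgroup G)) ?_⟩, h2⟩
        rw [Subgroup.mem_centralizer_iff]
        exact fun d hd => h2 d hd
      · rintro ⟨⟨h1, -⟩, h2⟩
        exact ⟨h1, h2⟩
    rw [c3, ← c2] at c1
    simp only [Finset.sum_const, nsmul_eq_mul, mul_one] at c1
    have k1 : Nat.card {y : G // IsConj x y} =
        (Finset.univ.filter (fun y : G => IsConj x y)).card := by
      rw [Nat.card_eq_fintype_card, Fintype.card_subtype]
    have k2 : (Finset.univ.filter
        (fun y : Subgroup.normalizer ((P : Subgroup G) : Set G) => IsConj x (y : G))).card =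
        (Finset.univ.filter (fun y : G => IsConj x y ∧
          y ∈ Subgroup.normalizer ((P : Subgroup G) : Set G))).card := by
      refine Finset.card_bij (fun (y : Subgroup.normalizer ((P : Subgroup G) : Set G)) _ => (y : G))
        ?_ ?_ ?_
      · intro y hy
        rw [Finset.mem_filter] at hy ⊢
        exact ⟨Finset.mem_univ _, hy.2, y.2⟩
      · intro a _ b _ h
        exact Subtype.ext h
      · intro y hy
        rw [Finset.mem_filter] at hy
        exact ⟨⟨y, hy.2.2⟩, by rw [Finset.mem_filter]; exact ⟨Finset.mem_univ _, hy.2.1⟩, rfl⟩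
    rw [k1, k2]
    exact c1

end Pool.Agent.Q18.CF
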