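import Pool.Agent.Q18.CF.Sec2
import Pool.Agent.Q21.CO.Core
import Pool.Agent.Y508.GA.Def

/-!
The principal block and the `p`-regular elements which centralise a Sylow `p`-subgroup.
-/

set_option linter.unusedSectionVars false

open scoped BigOperators Classical
open Pool.Agent.Helper884 Representation Pool.Agent.H254R3.IN Pool.Agent.Y62 Pool.Agent.Y62.GA

noncomputable section

namespace Pool.Agent.Q18.CF

variable {G : Type} [Group G] [Fintype G]

/-- a complement of the centre of a Sylow subgroup in its centraliser -/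
structure IsL (p : ℕ) (P L : Subgroup G) : Prop where
  card : ¬ p ∣ Nat.card L
  comm : ∀ k ∈ L, ∀ d ∈ P, Commute d k
  dec : ∀ g, (∀ d ∈ P, Commute d g) → ∃ z ∈ P, (∀ d ∈ P, Commute d z) ∧ ∃ k ∈ L, g = z * k
  reg : ∀ g, (∀ d ∈ P, Commute d g) → ¬ p ∣ orderOf g → g ∈ L

lemma IsL.order {p : ℕ} {P L : Subgroup G} (h : IsL p P L) {k : G} (hk : k ∈ L) :
    ¬ p ∣ orderOf k := by
  intro h1
  apply h.card
  have h2 := orderOf_dvd_natCard (⟨k, hk⟩ : L)
  rw [Subgroup.orderOf_mk] at h2
  exact h1.trans h2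

theorem exists_L {p : ℕ} [hp : Fact p.Prime] (P : Sylow p G) : ∃ L, IsL p (P : Subgroup G) L := by
  set M := Subgroup.centralizer ((P : Subgroup G) : Set G) with hM
  have hcomm : ∀ m ∈ M, ∀ d ∈ (P : Subgroup G), Commute d m := by
    intro m hm d hd
    exact Subgroup.mem_centralizer_iff.mp hm d hd
  set Z : Subgroup M := (P : Subgroup G).subgroupOf M with hZ
  have hZn : Z.Normal := by
    constructor
    intro z hz m
    have h1 : (z : G) ∈ (P : Subgroup G) := Subgroup.mem_subgroupOf.mp hz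
    have h2 : m * z * m⁻¹ = z := by
      apply Subtype.ext
      have h3 : (z : G) * m = m * z := hcomm m m.2 z h1
      simp only [Subgroup.coe_mul, Subgroup.coe_inv]
      rw [← h3]
      group
    rw [h2]
    exact hz
  have hZp : IsPGroup p Z := by
    have : IsPGroup p ((P : Subgroup G) ⊓ M : Subgroup G) :=
      P.isPGroup'.to_le (inf_le_left : (P : Subgroup G) ⊓ M ≤ P)
    rw [hZ]
    exact P.isPGroup'.comap_of_injective M.subtype M.subtype_injective
  obtain ⟨S, hS⟩ := hZp.exists_le_sylow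
  have hSZ : (S : Subgroup M) = Z := by
    apply le_antisymm _ hS
    have h1 : IsPGroup p ((S : Subgroup M).map M.subtype) := S.isPGroup'.map M.subtype
    have h2 : (S : Subgroup M).map M.subtype ≤ Subgroup.normalizer ((P : Subgroup G) : Set G) := by
      rintro _ ⟨s, _, rfl⟩
      rw [Subgroup.mem_normalizer_iff]
      intro d
      have h4 : ∀ d ∈ (P : Subgroup G), M.subtype s * d * (M.subtype s)⁻¹ = d := by
        intro d hd
        have h3 : d * (s : G) = s * d := hcomm s s.2 d hd
        change (s : G) * d * (s : G)⁻¹ = d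
        rw [← h3]; group
      constructor
      · intro hd
        rw [h4 d hd]
        exact hd
      · intro hd
        have h5 := h4 _ hd
        have h6 : d = M.subtype s * d * (M.subtype s)⁻¹ := by
          have h7 := congrArg (fun z => (M.subtype s)⁻¹ * z * M.subtype s) h5
          simp only [mul_assoc, inv_mul_cancel_left, inv_mul_cancel, mul_one] at h7
          simp only [mul_assoc]
          rw [h7]
        rw [h6]
        exact hd
    have h3 := P.3 (h1.to_sup_of_normal_right' P.2 h2) le_sup_right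
    intro s hs
    rw [hZ, Subgroup.mem_subgroupOf]
    have h4 : (s : G) ∈ (S : Subgroup M).map M.subtype ⊔ (P : Subgroup G) :=
      (le_sup_left : (S : Subgroup M).map M.subtype ≤ _) ⟨s, hs, rfl⟩
    rw [h3] at h4
    exact h4
  have hidx : ¬ p ∣ Z.index := by
    rw [← hSZ]
    exact S.not_dvd_index
  have hcop : Nat.Coprime (Nat.card Z) Z.index := by
    obtain ⟨n, hn⟩ := IsPGroup.iff_card.mp hZp
    rw [hn]
    exact Nat.Coprime.pow_left n ((Nat.Prime.coprime_iff_not_dvd hp.out).mpr hidx)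
  obtain ⟨L0, hL0⟩ := Subgroup.exists_right_complement'_of_coprime hcop
  have hLcard : ¬ p ∣ Nat.card L0 := by
    rw [← hL0.symm.index_eq_card]
    exact hidx
  refine ⟨L0.map M.subtype, ?_, ?_, ?_, ?_⟩
  · rwa [← Nat.card_congr (L0.equivMapOfInjective M.subtype M.subtype_injective).toEquiv]
  · rintro _ ⟨k, _, rfl⟩ d hd
    exact hcomm k k.2 d hd
  · intro g hg
    have hgM : g ∈ M := by
      rw [hM, Subgroup.mem_centralizer_iff]
      exact fun d hd => hg d hd
    obtain ⟨⟨z, k⟩, hzk, -⟩ := hL0.existsUnique ⟨g, hgM⟩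
    refine ⟨z, Subgroup.mem_subgroupOf.mp z.2, fun d hd => hcomm _ (z : M).2 d hd, (k : M),
      ⟨k, k.2, rfl⟩, ?_⟩
    have := congrArg Subtype.val hzk
    exact this.symm
  · intro g hg hreg
    have hgM : g ∈ M := by
      rw [hM, Subgroup.mem_centralizer_iff]
      exact fun d hd => hg d hd
    obtain ⟨⟨z, k⟩, hzk, -⟩ := hL0.existsUnique ⟨g, hgM⟩
    have hzP : ((z : M) : G) ∈ (P : Subgroup G) := Subgroup.mem_subgroupOf.mp z.2
    have h1 : ((z : M) : G) * ((k : M) : G) = g := congrArg Subtype.val hzk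
    have h2 : Commute ((z : M) : G) ((k : M) : G) := hcomm _ (k : M).2 _ hzP
    have h3 : (z : M) ^ orderOf g * (k : M) ^ orderOf g = 1 := by
      apply Subtype.ext
      rw [Subgroup.coe_mul, SubmonoidClass.coe_pow, SubmonoidClass.coe_pow, ← h2.mul_pow, h1,
        pow_orderOf_eq_one]
      rfl
    have h4 : (z : M) ^ orderOf g = 1 := by
      have h5 : (z : M) ^ orderOf g ∈ L0 := by
        rw [mul_eq_one_iff_eq_inv.mp h3]
        exact L0.inv_mem (L0.pow_mem k.2 _)
      have h6 := hL0.disjoint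
      rw [Subgroup.disjoint_def] at h6
      exact h6 (Z.pow_mem z.2 _) h5
    have h7 : (z : M) = 1 := by
      obtain ⟨n, hn⟩ := hZp z
      have h8 : (z : M) ^ p ^ n = 1 := congrArg Subtype.val hn
      have h9 := orderOf_dvd_of_pow_eq_one h4
      have h10 := orderOf_dvd_of_pow_eq_one h8
      have h11 := Nat.dvd_gcd h9 h10
      have h12 : Nat.gcd (orderOf g) (p ^ n) = 1 :=
        (Nat.Coprime.pow_left n ((Nat.Prime.coprime_iff_not_dvd hp.out).mpr hreg)).symm
      rw [h12] at h11
      exact orderOf_eq_one_iff.mp (Nat.dvd_one.mp h11)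
    refine ⟨k, k.2, ?_⟩
    rw [← h1, h7]
    change _ = (1 : G) * _
    rw [one_mul]
    rfl

variable {O : ValuationSubring ℂ} {p : ℕ} [hp : Fact p.Prime] (hpO : (p : ℂ) ∈ O.nonunits)

/-- class functions act by scalars -/
lemma central_val {χ : G → ℂ} (hχ : IsIrr χ) {f : G → ℂ} (hf : IsCl f) (k : G) :
    ∑ g, f g * χ (g * k) = Om f χ * χ k := by
  obtain ⟨V, _, _, _, ρ, hirr, rfl⟩ := hχ
  have h1 : ∑ g, f g • ρ g = Om f ρ.character • (1 : Module.End ℂ V) := class_scalar ρ hirr f hf
  have h2 := congrArg (fun T : Module.End ℂ V => LinearMap.trace ℂ V (T * ρ k)) h1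
  simp only [Finset.sum_mul, map_sum, smul_mul_assoc, map_smul, smul_eq_mul, one_mul] at h2
  have h3 : ∀ g, ρ.character (g * k) = LinearMap.trace ℂ V (ρ g * ρ k) := by
    intro g
    rw [← map_mul]
    rfl
  simp only [h3]
  exact h2

include hpO

lemma red_pel {χ : G → ℂ} (hχ : IsIrr χ) {y : G} {k : ℕ} (hy : y ^ p ^ k = 1) {s : G}
    (hys : Commute y s) : red O (χ (y * s)) = red O (χ s) := by
  obtain ⟨j, _, hj⟩ := (Nat.dvd_prime_pow hp.out).mp (orderOf_dvd_of_pow_eq_one hy)
  have := val_red hpO hχ hj hys 1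
  rwa [pow_one] at this

lemma red_pel_one {χ : G → ℂ} (hχ : IsIrr χ) {y : G} {k : ℕ} (hy : y ^ p ^ k = 1) :
    red O (χ y) = red O (χ 1) := by
  have := red_pel hpO hχ hy (Commute.one_right y)
  rwa [mul_one] at this

/-- sums of conjugation invariant functions -/
lemma sum_cen {D : Subgroup G} (hD : IsPGroup p D) (f : G → RF O)
    (hf : ∀ d ∈ D, ∀ x, f (d * x * d⁻¹) = f x) :
    ∑ x, f x = ∑ x, if (∀ d ∈ D, Commute d x) then f x else 0 := by
  have := charP_RF hpO
  let _ : MulAction D G := MulAction.compHom G ((MulAut.conj : G →* MulAut G).comp D.subtype)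
  have h1 := sum_fixed hD (X := G) (F := RF O)
    (fun a => by rw [← Nat.cast_smul_eq_nsmul (RF O), CharP.cast_eq_zero, zero_smul]) f
    (fun d x => hf d d.2 x)
  rw [h1, Finset.sum_filter]
  refine Finset.sum_congr rfl fun x _ => ?_
  have h2 : (∀ d : D, d • x = x) ↔ ∀ d ∈ D, Commute d x := by
    constructor
    · intro h d hd
      have h2 : d * x * d⁻¹ = x := h ⟨d, hd⟩
      have h3 := congrArg (· * d) h2
      have h4 : d * x = x * d := by simpa [mul_assoc] using h3
      exact h4
    · intro h d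
      change (d : G) * x * (d : G)⁻¹ = x
      have h3 : (d : G) * x = x * d := h d d.2
      rw [h3]
      group
  simp only [h2]

lemma red_RR (g : G) : red O (RR p g) = if p ∣ orderOf g then 0 else 1 := by
  unfold RR
  split_ifs
  · exact red_zero
  · exact red_one

lemma sum_L {P L : Subgroup G} (hL : IsL p P L) (f : G → RF O) :
    (∑ x, if (∀ d ∈ P, Commute d x) then (if p ∣ orderOf x then 0 else f x) else 0) =
      ∑ k : L, f k := by
  have h1 : ∀ x, (if (∀ d ∈ P, Commute d x) then (if p ∣ orderOf x then 0 else f x) else 0) =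
      if x ∈ L then f x else 0 := by
    intro x
    by_cases hx : x ∈ L
    · rw [if_pos (fun d hd => hL.comm x hx d hd), if_neg (hL.order hx), if_pos hx]
    · rw [if_neg hx]
      by_cases h2 : ∀ d ∈ P, Commute d x
      · rw [if_pos h2]
        by_cases h3 : p ∣ orderOf x
        · rw [if_pos h3]
        · exact absurd (hL.reg x h2 h3) hx
      · rw [if_neg h2]
  rw [Finset.sum_congr rfl fun x _ => h1 x, ← Finset.sum_filter]
  exact Finset.sum_subtype (p := fun g => g ∈ L) (Finset.univ.filter fun g => g ∈ L)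
    (by simp) f

/-- the scalar of the regular sum -/
lemma red_OmRR {χ : G → ℂ} (hχ : IsIrr χ) (P : Sylow p G) {L : Subgroup G}
    (hL : IsL p (P : Subgroup G) L) :
    red O (Om (RR p) χ) * red O (χ 1) = ∑ k : L, red O (χ k) := by
  have h1 : Om (RR p) χ * χ 1 = ∑ g, RR p g * χ g := by
    unfold Om
    rw [div_mul_cancel₀ _ hχ.one_ne]
  have hmem := (red_Om (O := O) hχ (RR_cl p) (RR_mem O p)).1
  rw [← red_mul hmem (hχ.val_mem O _), h1,
    red_sum _ _ (fun g _ => O.mul_mem _ _ (RR_mem O p g) (hχ.val_mem O g)),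
    sum_cen hpO P.isPGroup' _ (by
      intro d _ x
      rw [RR_cl, hχ.conj]), ← sum_L hpO hL (fun x => red O (χ x))]
  refine Finset.sum_congr rfl fun x _ => ?_
  rw [red_mul (RR_mem O p x) (hχ.val_mem O x), red_RR hpO]
  split_ifs <;> simp

lemma card_L_ne {P L : Subgroup G} (hL : IsL p P L) : ((Nat.card L : ℕ) : RF O) ≠ 0 := by
  have := charP_RF hpO
  intro h
  exact hL.card ((CharP.cast_eq_zero_iff (RF O) p _).mp h)

/-- for a member of the principal block the scalar is a unit -/
lemma red_OmRR_B0 {χ : G → ℂ} (hχ : χ ∈ B0 O G) (P : Sylow p G) {L : Subgroup G}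
    (hL : IsL p (P : Subgroup G) L) : red O (Om (RR p) χ) = Nat.card L := by
  have ht : IsIrr (fun _ : G => (1 : ℂ)) := Pool.Agent.Y508.GA.triv
  have h1 : red O (Om (RR p) χ) = red O (Om (RR p) (fun _ : G => (1 : ℂ))) := by
    rw [(red_Om (O := O) hχ.1 (RR_cl p) (RR_mem O p)).2, (red_Om (O := O) ht (RR_cl p) (RR_mem O p)).2]
    refine Finset.sum_congr rfl fun K _ => ?_
    rw [(red_eq_iff (hχ.1.omega_mem O _) (ht.omega_mem O _)).mpr (hχ.2 _)]
  have h2 := red_OmRR hpO ht P hL
  simp only [red_one, mul_one, Finset.sum_const, Finset.card_univ, ← Nat.card_eq_fintype_card,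
    nsmul_eq_mul] at h2
  rw [h1, h2]

end Pool.Agent.Q18.CF
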