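import Pool.Agent.Y62.Low2

/-!
A vanishing lemma: a character whose central character does not vanish modulo `p` at the sum of the
`p`-regular elements is constant, on the section of a `p`-element `x`, on the cosets of the normal
`p'`-subgroups of the centraliser of `x`.
-/

set_option linter.unusedSectionVars false

open scoped BigOperators Classical
open Pool.Agent.Helper884 Representation Pool.Agent.H254R3.IN Pool.Agent.Y62

noncomputable section

namespace Pool.Agent.Q18.CF

section weight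

variable {G : Type} [Group G]

/-- a twisted indicator function of a set invariant under conjugation by `g` -/
lemma exists_w (g : G) (A : G → Prop) (hA : ∀ h, A h ↔ A (g * h * g⁻¹)) (p : ℕ)
    (hm : ∀ h, A h → ∀ m : ℤ, g ^ m * h * (g ^ m)⁻¹ = h → (p : ℤ) ∣ m) (ζ : ℂ) (hζ0 : ζ ≠ 0)
    (hζ : ζ ^ p = 1) :
    ∃ w : G → ℂ, (∀ h, w (g * h * g⁻¹) = ζ * w h) ∧ (∀ h, ¬ A h → w h = 0) ∧
      ∀ h, A h → ∃ j : ℤ, w h = ζ ^ j := by
  have hAz : ∀ (m : ℤ) h, A h ↔ A (g ^ m * h * (g ^ m)⁻¹) := by
    intro m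
    induction m using Int.induction_on with
    | zero => intro h; simp
    | succ i ih =>
      intro h
      rw [hA h, ih]
      have : g ^ (i : ℤ) * (g * h * g⁻¹) * (g ^ (i : ℤ))⁻¹ =
          g ^ ((i : ℤ) + 1) * h * (g ^ ((i : ℤ) + 1))⁻¹ := by
        rw [zpow_add_one]; group
      rw [this]
    | pred i ih =>
      intro h
      rw [ih h]
      rw [hA (g ^ (-(i : ℤ) - 1) * h * (g ^ (-(i : ℤ) - 1))⁻¹)]
      have : g * (g ^ (-(i : ℤ) - 1) * h * (g ^ (-(i : ℤ) - 1))⁻¹) * g⁻¹ =
          g ^ (-(i : ℤ)) * h * (g ^ (-(i : ℤ)))⁻¹ := by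
        have h1 : g ^ (-(i : ℤ)) = g * g ^ (-(i : ℤ) - 1) := by
          rw [← zpow_one_add]; congr 1; ring
        rw [h1]; group
      rw [this]
  let S : Setoid G :=
    { r := fun a b => ∃ j : ℤ, b = g ^ j * a * (g ^ j)⁻¹
      iseqv :=
        { refl := fun a => ⟨0, by simp⟩
          symm := by
            rintro a b ⟨j, rfl⟩
            exact ⟨-j, by rw [zpow_neg]; group⟩
          trans := by
            rintro a b c ⟨i, rfl⟩ ⟨j, rfl⟩
            exact ⟨j + i, by rw [zpow_add]; group⟩ } }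
  let rep : G → G := fun h => (Quotient.mk S h).out
  have hrep : ∀ h, ∃ j : ℤ, h = g ^ j * rep h * (g ^ j)⁻¹ := fun h => Quotient.mk_out (s := S) h
  have hrep' : ∀ h, rep (g * h * g⁻¹) = rep h := by
    intro h
    have : Quotient.mk S (g * h * g⁻¹) = Quotient.mk S h := by
      apply Quotient.sound
      exact ⟨-1, by simp [mul_assoc]⟩
    simp only [rep, this]
  choose j hj using hrep
  refine ⟨fun h => if A h then ζ ^ j h else 0, ?_, fun h hh => if_neg hh, fun h hh =>
    ⟨j h, if_pos hh⟩⟩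
  intro h
  by_cases hh : A h
  · have hh' := (hA h).mp hh
    simp only [if_pos hh, if_pos hh']
    have h1 := hj (g * h * g⁻¹)
    rw [hrep'] at h1
    have h2 := hj h
    set r := rep h with hr
    set a := j (g * h * g⁻¹) with ha
    set b := j h with hb
    have h3 : g ^ a * r * (g ^ a)⁻¹ = g ^ (b + 1) * r * (g ^ (b + 1))⁻¹ := by
      rw [← h1]
      conv_lhs => rw [h2]
      rw [add_comm b 1, zpow_add, zpow_one]; group
    have h4 : g ^ (a - (b + 1)) * r * (g ^ (a - (b + 1)))⁻¹ = r := by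
      have e : g ^ (a - (b + 1)) = (g ^ (b + 1))⁻¹ * g ^ a := by
        rw [← zpow_neg, ← zpow_add]; congr 1; ring
      have e2 : ((g ^ (b + 1))⁻¹ * g ^ a) * r * ((g ^ (b + 1))⁻¹ * g ^ a)⁻¹ =
          (g ^ (b + 1))⁻¹ * (g ^ a * r * (g ^ a)⁻¹) * g ^ (b + 1) := by group
      rw [e, e2, h3]; group
    have hAr : A r := by
      rw [hAz b r, ← h2]
      exact hh
    obtain ⟨k, hk⟩ := hm r hAr _ h4
    have h5 : a = b + 1 + p * k := by linarith
    rw [h5, zpow_add₀ hζ0, zpow_mul, zpow_natCast, hζ, one_zpow, mul_one, add_comm b 1,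
      zpow_add₀ hζ0, zpow_one]
  · have hh' : ¬ A (g * h * g⁻¹) := fun h1 => hh ((hA h).mpr h1)
    simp only [if_neg hh, if_neg hh', mul_zero]

end weight

variable {G : Type} [Group G] [Fintype G]

/-- the indicator of the `p`-regular elements -/
def RR (p : ℕ) (g : G) : ℂ := if p ∣ orderOf g then 0 else 1

lemma RR_cl (p : ℕ) : IsCl (RR p : G → ℂ) := by
  intro g y
  unfold RR
  have : orderOf (y * g * y⁻¹) = orderOf g := by
    rw [← MulAut.conj_apply]
    exact (MulAut.conj y).orderOf_eq g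
  rw [this]

lemma RR_mem (O : ValuationSubring ℂ) (p : ℕ) (g : G) : RR p g ∈ O := by
  unfold RR
  split_ifs
  · exact O.zero_mem
  · exact O.one_mem

/-- if a power of `x s` with exponent prime to `p` commutes with `h` then `x` does -/
lemma comm_of_pow {p k : ℕ} [hp : Fact p.Prime] {x s h : G} (hx : x ^ p ^ k = 1)
    (hs : ¬ p ∣ orderOf s) (hxs : Commute x s) {m : ℤ}
    (hm : (x * s) ^ m * h * ((x * s) ^ m)⁻¹ = h) (hpm : ¬ (p : ℤ) ∣ m) : Commute x h := by
  have h1 : Commute ((x * s) ^ m) h := by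
    have := congrArg (fun z => z * (x * s) ^ m) hm
    simp only [inv_mul_cancel_right] at this
    exact this
  have h2 : IsCoprime m ((p : ℤ) ^ k) := by
    apply IsCoprime.pow_right
    rw [Int.isCoprime_iff_gcd_eq_one, Int.gcd_comm]
    have h3 : Nat.Coprime p m.natAbs := by
      rw [Nat.Prime.coprime_iff_not_dvd hp.out]
      intro h4
      exact hpm (Int.natCast_dvd.mpr h4)
    simpa [Int.gcd] using h3
  obtain ⟨a, b, hab⟩ := h2
  -- (xs)^(m a ord s ...) 
  have h4 : Nat.Coprime (orderOf s) (p ^ k) :=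
    Nat.Coprime.pow_right _ ((Nat.Prime.coprime_iff_not_dvd hp.out).mpr hs).symm
  have h5 : IsCoprime (orderOf s : ℤ) ((p : ℤ) ^ k) := by
    have := Nat.Coprime.isCoprime h4
    push_cast at this
    exact this
  obtain ⟨u, v, huv⟩ := h5
  have h6 : ((x * s) ^ m) ^ (a * (u * orderOf s)) = x := by
    rw [← zpow_mul, hxs.mul_zpow]
    have e1 : s ^ (m * (a * (u * orderOf s))) = 1 := by
      have : m * (a * (u * orderOf s)) = (orderOf s : ℤ) * (m * a * u) := by ring
      rw [this, zpow_mul, zpow_natCast, pow_orderOf_eq_one, one_zpow]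
    have e2 : x ^ (m * (a * (u * orderOf s))) = x := by
      have e3 : m * (a * (u * orderOf s)) = 1 + (p : ℤ) ^ k * (-b - v + b * v * p ^ k) := by
        have e4 : a * m = 1 - b * (p : ℤ) ^ k := by linarith
        have e5 : u * orderOf s = 1 - v * (p : ℤ) ^ k := by linarith
        calc m * (a * (u * orderOf s)) = (a * m) * (u * orderOf s) := by ring
          _ = (1 - b * (p : ℤ) ^ k) * (1 - v * (p : ℤ) ^ k) := by rw [e4, e5]
          _ = _ := by ring
      rw [e3, zpow_add, zpow_one, zpow_mul]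
      have : x ^ ((p : ℤ) ^ k) = 1 := by
        have := hx
        rw [← zpow_natCast] at this
        push_cast at this
        exact this
      rw [this, one_zpow, mul_one]
    rw [e1, e2, mul_one]
  rw [← h6]
  exact h1.zpow_left _

end Pool.Agent.Q18.CF
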