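import Pool.Agent.Q18.CF.Sec

/-!
The vanishing lemma.
-/

set_option linter.unusedSectionVars false

open scoped BigOperators Classical
open Pool.Agent.Helper884 Representation Pool.Agent.H254R3.IN Pool.Agent.Y62

noncomputable section

namespace Pool.Agent.Q18.CF

variable {G : Type} [Group G] [Fintype G]

/-- products with elements of a normalised `p'`-subgroup are `p`-regular -/
lemma reg_mul {p : ℕ} [hp : Fact p.Prime] {K : Subgroup G} (hK : ¬ p ∣ Nat.card K) {h : G}
    (hn : ∀ κ ∈ K, h⁻¹ * κ * h ∈ K) {κ : G} (hκ : κ ∈ K) (hh : ¬ p ∣ orderOf h) :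
    ¬ p ∣ orderOf (h * κ) := by
  have hpow : ∀ m : ℕ, ∀ κ ∈ K, (h ^ m)⁻¹ * κ * h ^ m ∈ K := by
    intro m
    induction m with
    | zero => intro κ hκ; simpa using hκ
    | succ m ih =>
      intro κ hκ
      have h1 := hn _ (ih κ hκ)
      have e : (h ^ (m + 1))⁻¹ * κ * h ^ (m + 1) = h⁻¹ * ((h ^ m)⁻¹ * κ * h ^ m) * h := by
        rw [pow_succ]; group
      rw [e]; exact h1
  have h1 : ∀ m : ℕ, (h ^ m)⁻¹ * (h * κ) ^ m ∈ K := by
    intro m
    induction m with
    | zero => simp [K.one_mem]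
    | succ m ih =>
      have h2 := hn _ ih
      have e : (h ^ (m + 1))⁻¹ * (h * κ) ^ (m + 1) =
          (h⁻¹ * ((h ^ m)⁻¹ * (h * κ) ^ m) * h) * κ := by
        rw [pow_succ, pow_succ]; group
      rw [e]; exact K.mul_mem h2 hκ
  have h2 := h1 (orderOf h)
  rw [pow_orderOf_eq_one, inv_one, one_mul] at h2
  have h3 : (h * κ) ^ (orderOf h * Nat.card K) = 1 := by
    rw [pow_mul]
    have h4 := congrArg Subtype.val (pow_card_eq_one' (x := (⟨_, h2⟩ : K)))
    rw [SubmonoidClass.coe_pow] at h4
    exact h4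
  have h4 := orderOf_dvd_of_pow_eq_one h3
  intro h5
  rcases (Nat.Prime.dvd_mul hp.out).mp (h5.trans h4) with h6 | h6
  · exact hh h6
  · exact hK h6

lemma reg_mul_iff {p : ℕ} [hp : Fact p.Prime] {K : Subgroup G} (hK : ¬ p ∣ Nat.card K) {h : G}
    (hn : ∀ κ ∈ K, h⁻¹ * κ * h ∈ K) {κ : G} (hκ : κ ∈ K) :
    ¬ p ∣ orderOf (h * κ) ↔ ¬ p ∣ orderOf h := by
  constructor
  · intro h1
    have h2 := reg_mul (h := h * κ) hK (fun κ' hκ' => by
      have := K.mul_mem (K.mul_mem (K.inv_mem hκ) (hn κ' hκ')) hκ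
      have e : (h * κ)⁻¹ * κ' * (h * κ) = κ⁻¹ * (h⁻¹ * κ' * h) * κ := by group
      rw [e]; exact this) (K.inv_mem hκ) h1
    rwa [mul_inv_cancel_right] at h2
  · exact reg_mul hK hn hκ

theorem sec_main {O : ValuationSubring ℂ} {p : ℕ} [hp : Fact p.Prime] (hpO : (p : ℂ) ∈ O.nonunits)
    {χ : G → ℂ} (hχ : IsIrr χ) (hr : red O (Om (RR p) χ) ≠ 0) {x s : G} {k : ℕ}
    (hx : x ^ p ^ k = 1) (hs : ¬ p ∣ orderOf s) (hxs : Commute x s) (K : Subgroup G)
    (hK : ¬ p ∣ Nat.card K) (hKx : ∀ κ ∈ K, Commute x κ)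
    (hKn : ∀ z, Commute x z → ∀ κ ∈ K, z * κ * z⁻¹ ∈ K) :
    ∑ κ : K, χ (x * s * κ) = Nat.card K * χ (x * s) := by
  obtain ⟨V, _, _, _, ρ, hirr, rfl⟩ := hχ
  have := irr_nontrivial ρ hirr
  set g := x * s with hg
  have hxg : Commute x g := (Commute.refl x).mul_right hxs
  have hKn' : ∀ z, Commute x z → ∀ κ ∈ K, z⁻¹ * κ * z ∈ K := by
    intro z hz κ hκ
    have := hKn z⁻¹ hz.inv_right κ hκ
    rwa [inv_inv] at this
  have hK0 : (Nat.card K : ℂ) ≠ 0 := by exact_mod_cast Nat.card_pos.ne'
  set kc : ℂ := (Nat.card K : ℂ)⁻¹ with hkc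
  have hkcO : kc ∈ O := nat_inv_mem hpO hK
  set F : Module.End ℂ V := kc • ∑ κ : K, ρ κ with hF
  -- F absorbs K
  have hKF : ∀ κ : K, ρ κ * F = F := by
    intro κ
    rw [hF, mul_smul_comm, Finset.mul_sum]
    congr 1
    refine Fintype.sum_equiv (Equiv.mulLeft κ) _ _ fun κ' => ?_
    rw [← map_mul]
    rfl
  have hFF : F * F = F := by
    have h1 : F * F = kc • ∑ κ : K, ρ κ * F := by
      conv_lhs => rw [hF]
      rw [smul_mul_assoc, Finset.sum_mul]
    rw [h1, Finset.sum_congr rfl fun κ _ => hKF κ, Finset.sum_const, Finset.card_univ,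
      ← Nat.card_eq_fintype_card, ← Nat.cast_smul_eq_nsmul ℂ, smul_smul, hkc,
      inv_mul_cancel₀ hK0, one_smul]
  have hzF : ∀ z, Commute x z → ρ z * F = F * ρ z := by
    intro z hz
    rw [hF, mul_smul_comm, smul_mul_assoc, Finset.mul_sum, Finset.sum_mul]
    congr 1
    let e : K ≃ K :=
      { toFun := fun κ => ⟨z * κ * z⁻¹, hKn z hz κ κ.2⟩
        invFun := fun κ => ⟨z⁻¹ * κ * z, hKn' z hz κ κ.2⟩
        left_inv := fun κ => Subtype.ext (by group)
        right_inv := fun κ => Subtype.ext (by group) }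
    refine Fintype.sum_equiv e _ _ fun κ => ?_
    rw [← map_mul, ← map_mul]
    congr 1
    change z * (κ : G) = z * κ * z⁻¹ * z
    group
  set E : Module.End ℂ V := 1 - F with hE
  have hFE : F * E = 0 := by rw [hE, mul_sub, mul_one, hFF, sub_self]
  have hEF : E * F = 0 := by rw [hE, sub_mul, one_mul, hFF, sub_self]
  have hEE : E * E = E := by
    calc E * E = (1 - F) * E := by rw [← hE]
      _ = E := by rw [sub_mul, one_mul, hFE, sub_zero]
  have hzE : ∀ z, Commute x z → ρ z * E = E * ρ z := by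
    intro z hz
    rw [hE, mul_sub, sub_mul, mul_one, one_mul, hzF z hz]
  -- the regular sum
  set α := Om (RR p) ρ.character with hα
  have hR : ∑ h, RR p h • ρ h = α • (1 : Module.End ℂ V) := class_scalar ρ hirr (RR p) (RR_cl p)
  obtain ⟨hαO, hαi, hα0⟩ := inv_mem_of_red_ne hr
  let A : G → Prop := fun h => ¬ p ∣ orderOf h ∧ ¬ Commute x h
  -- the part inside the centraliser
  set R1 : Module.End ℂ V := ∑ h, (if ¬ p ∣ orderOf h ∧ Commute x h then (1 : ℂ) else 0) • ρ h
    with hR1
  set R2 : Module.End ℂ V := ∑ h, (if A h then (1 : ℂ) else 0) • ρ h with hR2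
  have hR12 : R1 + R2 = α • (1 : Module.End ℂ V) := by
    rw [← hR, hR1, hR2, ← Finset.sum_add_distrib]
    refine Finset.sum_congr rfl fun h _ => ?_
    rw [← add_smul]
    congr 1
    unfold RR
    by_cases h1 : p ∣ orderOf h <;> by_cases h2 : Commute x h <;> simp [A, h1, h2]
  have hR1F : R1 * F = R1 := by
    have h1 : ∀ κ : K, R1 * ρ κ = R1 := by
      intro κ
      rw [hR1, Finset.sum_mul]
      refine Fintype.sum_equiv (Equiv.mulRight (κ : G)) _ _ fun h => ?_
      simp only [Equiv.coe_mulRight]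
      rw [smul_mul_assoc, ← map_mul]
      congr 1
      have h2 : Commute x (h * κ) ↔ Commute x h := by
        constructor
        · intro h3
          have := h3.mul_right (hKx _ (K.inv_mem κ.2))
          rwa [mul_inv_cancel_right] at this
        · intro h3
          exact h3.mul_right (hKx κ κ.2)
      by_cases h3 : Commute x h
      · have h4 := reg_mul_iff (p := p) hK (hKn' h h3) κ.2
        simp only [h2, h3, h4]
      · simp only [h2, h3, and_false]
    rw [hF, mul_smul_comm, Finset.mul_sum, Finset.sum_congr rfl fun κ _ => h1 κ,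
      Finset.sum_const, Finset.card_univ, ← Nat.card_eq_fintype_card,
      ← Nat.cast_smul_eq_nsmul ℂ, smul_smul, hkc, inv_mul_cancel₀ hK0, one_smul]
  have hR1E : R1 * E = 0 := by rw [hE, mul_sub, mul_one, hR1F, sub_self]
  have hER2E : E * R2 * E = α • E := by
    have h1 : R2 = α • (1 : Module.End ℂ V) - R1 := by rw [← hR12]; abel
    have h2 : R2 * E = α • E := by rw [h1, sub_mul, hR1E, sub_zero, smul_mul_assoc, one_mul]
    rw [mul_assoc, h2, mul_smul_comm, hEE]
  -- the twisted sum
  set ζ : ℂ := Complex.exp (2 * Real.pi * Complex.I / p) with hζdef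
  have hζ : IsPrimitiveRoot ζ p := Complex.isPrimitiveRoot_exp p hp.out.ne_zero
  have hζ1 : ζ ≠ 1 := hζ.ne_one hp.out.one_lt
  have hζ0 : ζ ≠ 0 := hζ.ne_zero hp.out.ne_zero
  have hζO : ζ ∈ O := root_mem hp.out.ne_zero hζ.pow_eq_one
  have hζr : red O ζ = 1 := red_root hpO (k := 1) (by rw [pow_one]; exact hζ.pow_eq_one)
  obtain ⟨w, hw1, hw2, hw3⟩ := exists_w g A (by
    intro h
    have h1 : orderOf (g * h * g⁻¹) = orderOf h := by
      rw [← MulAut.conj_apply]
      exact (MulAut.conj g).orderOf_eq h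
    have h2 : Commute x (g * h * g⁻¹) ↔ Commute x h := by
      constructor
      · intro h3
        have := (hxg.inv_right.mul_right h3).mul_right hxg
        have e : g⁻¹ * (g * h * g⁻¹) * g = h := by group
        rwa [e] at this
      · intro h3
        exact (hxg.mul_right h3).mul_right hxg.inv_right
    simp only [A, h1, h2]) p (by
    intro h hh m hm
    by_contra hpm
    exact hh.2 (comm_of_pow hx hs hxs hm hpm)) ζ hζ0 hζ.pow_eq_one
  have hwd : ∀ h, w h - (if A h then 1 else 0) ∈ O ∧ red O (w h - (if A h then 1 else 0)) = 0 := by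
    intro h
    by_cases hh : A h
    · obtain ⟨j, hj⟩ := hw3 h hh
      have h1 : ∃ n : ℕ, w h = ζ ^ n := by
        obtain ⟨n, hn⟩ : ∃ n : ℕ, (n : ℤ) ≡ j [ZMOD p] := by
          refine ⟨(j % p).toNat, ?_⟩
          rw [Int.toNat_of_nonneg (Int.emod_nonneg _ (by exact_mod_cast hp.out.ne_zero))]
          exact Int.mod_modEq j p
        refine ⟨n, ?_⟩
        rw [hj, ← zpow_natCast]
        obtain ⟨c, hc⟩ := hn.dvd
        have : j = n + p * c := by linarith
        rw [this, zpow_add₀ hζ0, zpow_mul, zpow_natCast ζ p, hζ.pow_eq_one, one_zpow, mul_one]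
      obtain ⟨n, hn⟩ := h1
      rw [if_pos hh, hn]
      have h2 : ζ ^ n ∈ O := pow_mem hζO n
      refine ⟨sub_mem' h2 O.one_mem, ?_⟩
      rw [red_sub h2 O.one_mem, red_pow hζO, hζr, one_pow, red_one, sub_self]
    · rw [if_neg hh, hw2 h hh, sub_zero]
      exact ⟨O.zero_mem, red_zero⟩
  set U2 : Module.End ℂ V := ∑ h, w h • ρ h with hU2
  set U3 : Module.End ℂ V := ∑ h, (w h - (if A h then 1 else 0)) • ρ h with hU3
  have hU23 : U2 = R2 + U3 := by
    rw [hU2, hR2, hU3, ← Finset.sum_add_distrib]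
    refine Finset.sum_congr rfl fun h _ => ?_
    rw [← add_smul]
    congr 1
    ring
  have hrel : U2 * ρ g = ζ • (ρ g * U2) := by
    rw [hU2, Finset.sum_mul, Finset.mul_sum, Finset.smul_sum]
    symm
    refine Fintype.sum_equiv (MulAut.conj g).toEquiv _ _ fun h => ?_
    have e : (MulAut.conj g).toEquiv h = g * h * g⁻¹ := by simp
    rw [e, hw1, mul_smul_comm, smul_smul, smul_mul_assoc, ← map_mul, ← map_mul]
    congr 2
    group
  set U : Module.End ℂ V := E * U2 * E with hU
  have hUE : U * E = U := by rw [hU, mul_assoc, hEE]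
  have hEU : E * U = U := by rw [hU, ← mul_assoc, ← mul_assoc, hEE]
  have hUF : U * F = 0 := by rw [hU, mul_assoc, hEF, mul_zero]
  have hUg : U * ρ g = ζ • (ρ g * U) := by
    calc U * ρ g = E * U2 * (E * ρ g) := by rw [hU]; simp only [mul_assoc]
      _ = E * (U2 * ρ g) * E := by rw [← hzE g hxg]; simp only [mul_assoc]
      _ = ζ • ((E * ρ g) * U2 * E) := by rw [hrel, mul_smul_comm, smul_mul_assoc]; simp only [mul_assoc]
      _ = ζ • (ρ g * U) := by rw [← hzE g hxg, hU]; simp only [mul_assoc]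
  set T : Module.End ℂ V := U + F with hT
  have hTE : T * E = U := by rw [hT, add_mul, hUE, hFE, add_zero]
  have hET : E * T = U := by rw [hT, mul_add, hEU, hEF, add_zero]
  -- surjectivity
  have hsurj : Function.Surjective T := by
    let b := Module.finBasis ℂ V
    set M : Submodule O V := Submodule.span O (Set.range fun q : G × Fin (Module.finrank ℂ V) =>
      ρ q.1 (b q.2)) with hM
    have hstab : ∀ (g : G) (v : V), v ∈ M → ρ g v ∈ M := by
      intro g v hv
      induction hv using Submodule.span_induction with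
      | mem v hv =>
        obtain ⟨q, rfl⟩ := hv
        apply Submodule.subset_span
        exact ⟨(g * q.1, q.2), by simp [map_mul]⟩
      | zero => rw [map_zero]; exact M.zero_mem
      | add u v _ _ hu hv => rw [map_add]; exact M.add_mem hu hv
      | smul c v _ hv =>
        have h1 : ρ g (c • v) = c • (ρ g v) := by
          have : (c • v : V) = (c : ℂ) • v := rfl
          rw [this, map_smul]
          rfl
        rw [h1]
        exact M.smul_mem c hv
    have hfg : M.FG := by
      rw [hM]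
      exact Submodule.fg_span (Set.finite_range _)
    have hsm : ∀ c : ℂ, c ∈ O → ∀ v ∈ M, c • v ∈ M := fun c hc v hv =>
      M.smul_mem (⟨c, hc⟩ : O) hv
    have hFM : ∀ v ∈ M, F v ∈ M := by
      intro v hv
      rw [hF, LinearMap.smul_apply, LinearMap.sum_apply]
      exact hsm _ hkcO _ (sum_mem fun κ _ => hstab _ v hv)
    have hEM : ∀ v ∈ M, E v ∈ M := by
      intro v hv
      rw [hE, LinearMap.sub_apply]
      exact M.sub_mem hv (hFM v hv)
    set J := IsLocalRing.maximalIdeal O with hJ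
    have key : M ≤ Submodule.map (T.restrictScalars O) M := by
      refine Submodule.le_of_le_smul_of_le_jacobson_bot (I := J) hfg
        (IsLocalRing.maximalIdeal_le_jacobson ⊥) ?_
      intro v hv
      set u : V := α⁻¹ • E v + F v with hu
      have huM : u ∈ M := M.add_mem (hsm _ hαi _ (hEM v hv)) (hFM v hv)
      have h1 : T u = v + α⁻¹ • (E (U3 (E v))) := by
        have h2 : T u = α⁻¹ • ((T * E) v) + (T * F) v := by
          rw [hu, map_add, map_smul]; rfl
        have h3 : T * F = F := by rw [hT, add_mul, hUF, zero_add, hFF]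
        have h4 : U = α • E + E * U3 * E := by
          rw [← hER2E, ← add_mul, ← mul_add, ← hU23]
        rw [h2, hTE, h3, h4, LinearMap.add_apply, LinearMap.smul_apply, smul_add, smul_smul,
          inv_mul_cancel₀ hα0, one_smul]
        have h5 : E v + F v = v := by
          rw [hE, LinearMap.sub_apply]
          simp
        calc E v + α⁻¹ • (E * U3 * E) v + F v = (E v + F v) + α⁻¹ • (E * U3 * E) v := by abel
          _ = _ := by rw [h5]; rfl
      have h6 : α⁻¹ • (E (U3 (E v))) ∈ J • M := by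
        rw [hU3, LinearMap.sum_apply, map_sum, Finset.smul_sum]
        refine sum_mem fun h _ => ?_
        rw [LinearMap.smul_apply, map_smul, smul_comm]
        obtain ⟨h7, h8⟩ := hwd h
        have h9 : (⟨_, h7⟩ : O) ∈ J := by
          rw [red_of_mem h7, IsLocalRing.residue_eq_zero_iff] at h8
          exact h8
        exact Submodule.smul_mem_smul h9 (hsm _ hαi _ (hEM _ (hstab _ _ (hEM v hv))))
      have h10 : v = T u + -(α⁻¹ • (E (U3 (E v)))) := by rw [h1]; abel
      rw [h10]
      exact Submodule.add_mem_sup ⟨u, huM, rfl⟩ (neg_mem h6)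
    have h1 : ∀ i, b i ∈ LinearMap.range T := by
      intro i
      have h2 : b i ∈ M := Submodule.subset_span ⟨(1, i), by simp⟩
      obtain ⟨u, _, hu⟩ := key h2
      exact ⟨u, hu⟩
    rw [← LinearMap.range_eq_top, eq_top_iff, ← b.span_eq, Submodule.span_le]
    rintro _ ⟨i, rfl⟩
    exact h1 i
  have hinj : Function.Injective T := LinearMap.injective_iff_surjective.mpr hsurj
  let Te := LinearEquiv.ofBijective T ⟨hinj, hsurj⟩
  let T' : Module.End ℂ V := Te.symm.toLinearMap
  have hTT' : T * T' = 1 := by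
    ext v
    change Te (Te.symm v) = v
    simp
  have hT'T : T' * T = 1 := by
    ext v
    change Te.symm (Te v) = v
    simp
  have htr : LinearMap.trace ℂ V (ρ g * E) = ζ * LinearMap.trace ℂ V (ρ g * E) := by
    have h1 : ρ g * E = T' * (ζ • (ρ g * U)) := by
      calc ρ g * E = (T' * T) * (ρ g * E) := by rw [hT'T, one_mul]
        _ = T' * ((T * E) * ρ g) := by rw [hzE g hxg]; simp only [mul_assoc]
        _ = _ := by rw [hTE, hUg]
    conv_lhs => rw [h1]
    rw [mul_smul_comm, map_smul, smul_eq_mul, LinearMap.trace_mul_comm, mul_assoc]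
    congr 2
    rw [← hET, mul_assoc, hTT', mul_one]
  have h0 : LinearMap.trace ℂ V (ρ g * E) = 0 := by
    have h1 : (1 - ζ) * LinearMap.trace ℂ V (ρ g * E) = 0 := by
      rw [sub_mul, one_mul, ← htr, sub_self]
    rcases mul_eq_zero.mp h1 with h2 | h2
    · exact absurd (sub_eq_zero.mp h2).symm hζ1
    · exact h2
  have h1 : LinearMap.trace ℂ V (ρ g * E) =
      ρ.character g - kc * ∑ κ : K, ρ.character (g * κ) := by
    rw [hE, mul_sub, mul_one, map_sub, hF, mul_smul_comm, map_smul, Finset.mul_sum, map_sum,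
      smul_eq_mul]
    congr 2
    refine Finset.sum_congr rfl fun κ _ => ?_
    rw [← map_mul]
    rfl
  rw [h1, sub_eq_zero] at h0
  rw [h0, hkc, mul_inv_cancel_left₀ hK0]

end Pool.Agent.Q18.CF
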